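import Pool.Agent.Q132.SAlpha.Map

open Filter Topology Set

namespace Pool.Agent.Q132.SAlpha

/-- A backward orbit branch of `x` in `[0,1]`. -/
def IsBranch (f : ℝ → ℝ) (x : ℝ) (u : ℕ → ℝ) : Prop :=
  u 0 = x ∧ (∀ k, u k ∈ Icc (0 : ℝ) 1) ∧ ∀ k, f (u (k + 1)) = u k

/-- The special `α`-limit set of `x`. -/
def sAlpha (f : ℝ → ℝ) (x : ℝ) : Set ℝ :=
  {y | y ∈ Icc (0 : ℝ) 1 ∧ ∃ u : ℕ → ℝ, IsBranch f x u ∧
    ∃ φ : ℕ → ℕ, StrictMono φ ∧ Tendsto (fun k => u (φ k)) atTop (𝓝 y)}

noncomputable def F (n : ℕ) (y : ℝ) : ℝ := r n - (1 - y) * L n / del n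

lemma l_zero : l 0 = 0 := by norm_num [l, eps]
lemma r_zero : r 0 = 1 := by norm_num [r]
lemma L_zero : L 0 = 1 := by norm_num [L, l_zero, r_zero]
lemma del_zero : del 0 = 1 := by norm_num [del, eps]

lemma f_unit {t : ℝ} (h : t ∈ Icc (0 : ℝ) 1) : f t ∈ Icc (0 : ℝ) 1 := by
  have := f_mem (n := 0) (t := t) (by rw [l_zero]; exact h.1) (by rw [r_zero]; exact h.2)
  rw [del_zero] at this
  exact ⟨by linarith [this.1], this.2⟩

lemma del_one_lt (n : ℕ) : del (n + 1) < 1 / 4 := by
  have h1 := del_anti (m := 1) (n := n + 1) (by omega)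
  have h2 : del 1 = 1 / 16 := by norm_num [del, eps]
  linarith

lemma F_mem {n : ℕ} {y : ℝ} (h : 1 - del n ≤ y) (h' : y ≤ 1) : l n ≤ F n y ∧ F n y ≤ r n := by
  have hd := del_pos n
  have hL := L_pos n
  unfold F
  have h1 : (1 - y) * L n / del n ≤ L n := by
    rw [div_le_iff₀ hd]; nlinarith
  have h2 : 0 ≤ (1 - y) * L n / del n :=
    div_nonneg (mul_nonneg (by linarith) hL.le) hd.le
  constructor
  · have : L n = r n - l n := rfl
    linarith
  · linarith

lemma F_ge {n : ℕ} {y : ℝ} (h : 1 - del (n + 1) ≤ y) (h' : y ≤ 1) :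
    c n ≤ F n y ∧ F n y ≤ r n := by
  have hd := del_pos n
  have hL := L_pos n
  refine ⟨?_, (F_mem (n := n) (y := y) (by linarith [del_anti (Nat.le_succ n)]) h').2⟩
  unfold F c
  have h1 : (1 - y) * L n / del n ≤ gam n := by
    rw [div_le_iff₀ hd]
    have : del (n + 1) * L n = del n * gam n := by
      rw [del_succ]; field_simp
    nlinarith
  linarith

lemma iter_F (n : ℕ) : ∀ y : ℝ, 1 - del n ≤ y → y ≤ 1 →
    f^[2 ^ n - 1] y = F n y ∧ ∀ j < 2 ^ n - 1, 3 / 4 < f^[j] y := by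
  induction n with
  | zero =>
    intro y _ _
    refine ⟨?_, fun j hj => absurd hj (by simp)⟩
    simp [F, r_zero, L_zero, del_zero]
  | succ n ih =>
    intro y h1 h2
    have hd := del_pos n
    have hL := L_pos n
    have hg := gam_pos n
    have hy1 : 1 - del n ≤ y := by linarith [del_anti (Nat.le_succ n)]
    obtain ⟨e1, b1⟩ := ih y hy1 h2
    obtain ⟨g1, g2⟩ := F_ge h1 h2
    have hfJ := f_J g1 g2
    set y' := f (F n y) with hy'
    have hm := f_mem (n := n) (t := F n y) ((F_mem hy1 h2).1) g2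
    obtain ⟨e2, b2⟩ := ih y' hm.1 hm.2
    have hP : 0 < 2 ^ n := by positivity
    have hsplit : 2 ^ (n + 1) - 1 = (2 ^ n - 1) + ((2 ^ n - 1) + 1) := by
      rw [pow_succ]; omega
    have hstep : f^[(2 ^ n - 1) + 1] y = y' := by
      rw [Function.iterate_succ_apply', e1]
    refine ⟨?_, ?_⟩
    · rw [hsplit, Function.iterate_add_apply, hstep, e2]
      unfold F
      rw [hfJ]
      have hdd : del (n + 1) = del n * gam n / L n := del_succ n
      rw [hdd]
      unfold lam F
      have hL1 : L (n + 1) = r (n + 1) - l (n + 1) := rfl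
      have hc : c n = r n - gam n := rfl
      rw [hc]
      have hr1 : r (n + 1) = L (n + 1) + l (n + 1) := by rw [hL1]; ring
      rw [hr1]
      field_simp
      ring
    · intro j hj
      rcases lt_trichotomy j (2 ^ n - 1) with h | h | h
      · exact b1 j h
      · subst h
        rw [e1]
        have := c_gt n
        have := eta_pos n
        linarith
      · obtain ⟨i, rfl⟩ : ∃ i, j = i + ((2 ^ n - 1) + 1) := ⟨j - ((2 ^ n - 1) + 1), by omega⟩
        rw [Function.iterate_add_apply, hstep]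
        exact b2 i (by omega)

lemma iter_pow {n : ℕ} {t : ℝ} (h1 : l n ≤ t) (h2 : t ≤ r n) :
    f^[2 ^ n] t = F n (f t) := by
  obtain ⟨m1, m2⟩ := f_mem h1 h2
  have e : 2 ^ n = (2 ^ n - 1) + 1 := by have : 0 < 2 ^ n := by positivity
                                         omega
  rw [e, Function.iterate_succ_apply]
  exact (iter_F n _ m1 m2).1

lemma iter_pow_mem {n : ℕ} {t : ℝ} (h1 : l n ≤ t) (h2 : t ≤ r n) :
    l n ≤ f^[2 ^ n] t ∧ f^[2 ^ n] t ≤ r n := by
  rw [iter_pow h1 h2]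
  obtain ⟨m1, m2⟩ := f_mem h1 h2
  exact F_mem m1 m2

lemma iter_gt {n j : ℕ} {t : ℝ} (h1 : l n ≤ t) (h2 : t ≤ r n) (hj : 1 ≤ j) (hj' : j < 2 ^ n) :
    3 / 4 < f^[j] t := by
  obtain ⟨m1, m2⟩ := f_mem h1 h2
  obtain ⟨i, rfl⟩ : ∃ i, j = i + 1 := ⟨j - 1, by omega⟩
  rw [Function.iterate_succ_apply]
  exact (iter_F n _ m1 m2).2 i (by omega)

/-- The orbit of the `n`-th interval. -/
def O (n : ℕ) : Set ℝ := {y | ∃ j < 2 ^ n, ∃ t, l n ≤ t ∧ t ≤ r n ∧ y = f^[j] t}

lemma O_step {n : ℕ} {y : ℝ} (h : y ∈ O n) : f y ∈ O n := by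
  obtain ⟨j, hj, t, h1, h2, rfl⟩ := h
  rcases Nat.lt_or_ge (j + 1) (2 ^ n) with h | h
  · exact ⟨j + 1, h, t, h1, h2, (Function.iterate_succ_apply' f j t).symm⟩
  · have : j + 1 = 2 ^ n := by omega
    obtain ⟨m1, m2⟩ := iter_pow_mem h1 h2
    refine ⟨0, by positivity, f^[2 ^ n] t, m1, m2, ?_⟩
    rw [← this, Function.iterate_succ_apply']
    rfl

lemma O_iter {n : ℕ} {y : ℝ} (h : y ∈ O n) (k : ℕ) : f^[k] y ∈ O n := by
  induction k with
  | zero => exact h
  | succ k ih => rw [Function.iterate_succ_apply']; exact O_step ih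

lemma tendsto_l : Tendsto l atTop (𝓝 (1 / 4)) := by
  have h1 : Tendsto eps atTop (𝓝 0) := by
    refine squeeze_zero (fun n => (eps_pos n).le) eps_le_half ?_
    exact tendsto_pow_atTop_nhds_zero_of_lt_one (by norm_num) (by norm_num)
  have h2 : Tendsto (fun n => 1 / 4 - eps n / 4) atTop (𝓝 (1 / 4 - 0 / 4)) :=
    tendsto_const_nhds.sub (h1.div_const 4)
  have h3 : l = fun n => 1 / 4 - eps n / 4 := rfl
  rw [h3]
  simpa using h2

lemma branch_iter {f : ℝ → ℝ} {x : ℝ} {u : ℕ → ℝ} (h : IsBranch f x u) (i k : ℕ) :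
    f^[k] (u (i + k)) = u i := by
  induction k with
  | zero => rfl
  | succ k ih =>
    rw [Function.iterate_succ_apply, ← add_assoc, h.2.2 (i + k), ih]

lemma quarter_notMem {x : ℝ} (hx : x ≤ 3 / 4) : (1 / 4 : ℝ) ∉ sAlpha f x := by
  rintro ⟨-, u, hu, φ, hφ, hlim⟩
  -- the branch stays in every `O n`
  have hO : ∀ n i, u i ∈ O n := by
    intro n i
    have hn : Ioo (l n) (3 / 4) ∈ 𝓝 (1 / 4 : ℝ) := Ioo_mem_nhds (l_lt n) (by norm_num)
    have h1 := (hlim.eventually hn).and (eventually_ge_atTop i)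
    obtain ⟨k, hk, hki⟩ := h1.exists
    have hle : i ≤ φ k := hki.trans (hφ.id_le k)
    obtain ⟨d, hd⟩ := Nat.exists_eq_add_of_le hle
    have h2 : u (φ k) ∈ O n :=
      ⟨0, by positivity, u (φ k), hk.1.le, hk.2.le.trans (r_gt n).le, rfl⟩
    have h3 := O_iter h2 d
    rw [hd, branch_iter hu i d] at h3
    exact h3
  -- choose a late point near `1/4`
  have hn : Iio (3 / 4 : ℝ) ∈ 𝓝 (1 / 4 : ℝ) := Iio_mem_nhds (by norm_num)
  obtain ⟨k, hk, hk1⟩ := ((hlim.eventually hn).and (eventually_ge_atTop 1)).exists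
  have hk' : u (φ k) < 3 / 4 := hk
  have hφk : 1 ≤ φ k := hk1.trans (hφ.id_le k)
  have hI : ∀ n, l n ≤ u (φ k) := by
    intro n
    obtain ⟨j, hj, t, h1, h2, h3⟩ := hO n (φ k)
    rcases Nat.eq_zero_or_pos j with h | h
    · subst h
      rw [h3]; exact h1
    · have := iter_gt h1 h2 h hj
      rw [← h3] at this
      linarith
  -- now contradiction
  have hlt : φ k < 2 ^ (φ k) := Nat.lt_two_pow_self
  have h4 := iter_gt (n := φ k) (hI _) (hk'.le.trans (r_gt _).le) hφk hlt
  have h5 := branch_iter hu 0 (φ k)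
  rw [zero_add] at h5
  rw [h5, hu.1] at h4
  linarith

/-- From a backward branch of an iterate to a backward branch. -/
lemma mem_sAlpha_of_iter {f : ℝ → ℝ} (hf : ∀ t ∈ Icc (0 : ℝ) 1, f t ∈ Icc (0 : ℝ) 1)
    {x y : ℝ} {p : ℕ} (hp : 0 < p) {T : ℕ → ℝ} (h0 : T 0 = x)
    (hT : ∀ k, T k ∈ Icc (0 : ℝ) 1) (hs : ∀ k, f^[p] (T (k + 1)) = T k)
    (hlim : Tendsto T atTop (𝓝 y)) : y ∈ sAlpha f x := by
  have hit : ∀ m, ∀ t ∈ Icc (0 : ℝ) 1, f^[m] t ∈ Icc (0 : ℝ) 1 := by
    intro m
    induction m with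
    | zero => intro t ht; exact ht
    | succ m ih => intro t ht; rw [Function.iterate_succ_apply']; exact hf _ (ih t ht)
  refine ⟨isClosed_Icc.mem_of_tendsto hlim (Eventually.of_forall hT), ?_⟩
  refine ⟨fun k => f^[p - k % p] (T (k / p + 1)), ⟨?_, fun k => hit _ _ (hT _), ?_⟩,
    fun a => p * a, ?_, ?_⟩
  · simp only [Nat.zero_mod, Nat.zero_div, Nat.sub_zero, zero_add]
    rw [show (1 : ℕ) = 0 + 1 from rfl, hs 0, h0]
  · intro k
    have hk : k % p < p := Nat.mod_lt _ hp
    rcases Nat.lt_or_ge (k % p + 1) p with h | h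
    · have e1 : (k + 1) % p = k % p + 1 := by
        rw [Nat.add_mod, Nat.mod_eq_of_lt (show 1 < p by omega), Nat.mod_eq_of_lt h]
      have e2 : (k + 1) / p = k / p := by
        rw [Nat.succ_div_of_not_dvd]
        rw [Nat.dvd_iff_mod_eq_zero, e1]
        omega
      simp only [e1, e2]
      rw [← Function.iterate_succ_apply' f]
      congr 1
      omega
    · have e0 : k % p + 1 = p := by omega
      have hdvd : p ∣ k + 1 := by
        refine ⟨k / p + 1, ?_⟩
        have := Nat.div_add_mod k p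
        rw [mul_add, mul_one]
        omega
      have e1 : (k + 1) % p = 0 := Nat.mod_eq_zero_of_dvd hdvd
      have e2 : (k + 1) / p = k / p + 1 := Nat.succ_div_of_dvd hdvd
      simp only [e1, e2, Nat.sub_zero]
      rw [hs (k / p + 1), show p - k % p = 1 by omega]
      rfl
  · intro a b hab
    exact Nat.mul_lt_mul_of_pos_left hab hp
  · have : (fun a => f^[p - (p * a) % p] (T ((p * a) / p + 1))) = T := by
      funext a
      rw [Nat.mul_mod_right, Nat.mul_div_cancel_left a hp, Nat.sub_zero, hs a]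
    rw [this]
    exact hlim

lemma l_le_one (n : ℕ) : l n ≤ 1 := by linarith [l_lt n]

/-- The left endpoints belong to the special `α`-limit sets of all central points. -/
lemma l_mem {x : ℝ} (hx : 1 / 4 ≤ x) (hx' : x ≤ 3 / 4) (n : ℕ) : l n ∈ sAlpha f x := by
  -- solve one backward step
  have hE := eps_pos n
  have hE1 := eps_le_one n
  have hL := L_ge n
  have hln : l n = 1 / 4 - eps n / 4 := rfl
  have hln1 : l (n + 1) = 1 / 4 - eps (n + 1) / 4 := rfl
  have hr : l (n + 1) ≤ r n := by linarith [l_lt (n + 1), r_gt n]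
  have step : ∀ s : ℝ, l n < s → s ≤ c n →
      ∃ t : ℝ, l n < t ∧ t ≤ l (n + 1) ∧ f^[2 ^ n] t = s ∧ t - l n ≤ (s - l n) / 2 := by
    intro s hs1 hs2
    have hlt : l n ≤ l (n + 1) := by linarith [l_diff_pos n]
    have hcont : ContinuousOn (f^[2 ^ n]) (Icc (l n) (l (n + 1))) :=
      (continuous_f.iterate _).continuousOn
    have hval : ∀ t, l n ≤ t → t ≤ 1 / 4 → f^[2 ^ n] t = r n - (1 - 4 * t) ^ 2 * L n / eps n ^ 2 := by
      intro t h1 h2
      rw [iter_pow h1 (by linarith [r_gt n]), f_left h2]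
      unfold F del
      ring
    have ha : f^[2 ^ n] (l n) = l n := by
      rw [hval _ le_rfl (l_lt n).le, hln]
      have : L n = r n - l n := rfl
      rw [this, hln]
      field_simp
      ring
    have hb : f^[2 ^ n] (l (n + 1)) = c n := by
      rw [hval _ hlt (l_lt _).le, hln1, eps_succ]
      unfold c gam
      field_simp
      ring
    obtain ⟨t, ht, hts⟩ := intermediate_value_Icc hlt hcont
      (show s ∈ Icc (f^[2 ^ n] (l n)) (f^[2 ^ n] (l (n + 1))) by
        rw [ha, hb]; exact ⟨hs1.le, hs2⟩)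
    have ht1 : l n < t := by
      rcases ht.1.lt_or_eq with h | h
      · exact h
      · rw [← h, ha] at hts; linarith
    refine ⟨t, ht1, ht.2, hts, ?_⟩
    have ht4 : t ≤ 1 / 4 := ht.2.trans (l_lt _).le
    rw [hval t ht.1 ht4] at hts
    have hLd : L n = r n - l n := rfl
    -- `s - l n = L n (E - e) (E + e) / E^2`
    set E := eps n with hEdef
    set e := 1 - 4 * t with hedef
    have he0 : 0 ≤ e := by linarith
    have heE : e ≤ E := by linarith [ht.1]
    have h1 : s - l n = L n * ((E - e) * (E + e) / E ^ 2) := by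
      rw [← hts, hLd]
      field_simp
      ring
    have h2 : (E - e) ≤ (E - e) * (E + e) / E ^ 2 := by
      rw [le_div_iff₀ (by positivity)]
      have : E ^ 2 ≤ E + e := by nlinarith
      exact mul_le_mul_of_nonneg_left this (by linarith)
    have h3 : (1 / 2) * (E - e) ≤ s - l n := by
      rw [h1]
      have : 0 ≤ E - e := by linarith
      exact mul_le_mul hL h2 this (by linarith)
    have h4 : t - l n = (E - e) / 4 := by rw [hln]; ring
    rw [h4]
    linarith
  have hlc : l (n + 1) ≤ c n := by linarith [l_lt (n + 1), c_gt n, eta_pos n]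
  choose! g hg1 hg2 hg3 hg4 using step
  -- the backward orbit of the iterate
  let T : ℕ → ℝ := fun k => Nat.rec x (fun _ s => g s) k
  have hT0 : T 0 = x := rfl
  have hTs : ∀ k, T (k + 1) = g (T k) := fun k => rfl
  have hTm : ∀ k, l n < T k ∧ T k ≤ c n := by
    intro k
    induction k with
    | zero =>
      rw [hT0]
      exact ⟨by linarith [l_lt n], by linarith [c_gt n, eta_pos n]⟩
    | succ k ih =>
      rw [hTs]
      exact ⟨hg1 _ ih.1 ih.2, (hg2 _ ih.1 ih.2).trans hlc⟩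
  have hTd : ∀ k, T k - l n ≤ (1 / 2) ^ k := by
    intro k
    induction k with
    | zero =>
      rw [hT0, pow_zero]
      linarith [l_nonneg n]
    | succ k ih =>
      rw [hTs, pow_succ]
      have := hg4 _ (hTm k).1 (hTm k).2
      linarith
  have hlim : Tendsto T atTop (𝓝 (l n)) := by
    have h1 : Tendsto (fun k => T k - l n) atTop (𝓝 0) := by
      refine squeeze_zero (fun k => by linarith [(hTm k).1]) hTd ?_
      exact tendsto_pow_atTop_nhds_zero_of_lt_one (by norm_num) (by norm_num)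
    have h2 := h1.add_const (l n)
    simpa using h2
  refine mem_sAlpha_of_iter (p := 2 ^ n) (fun t ht => f_unit ht) (by positivity) hT0 (fun k => ?_)
    (fun k => ?_) hlim
  · have h1 := hTm k
    have h2 := c_lt_r n
    have h3 := r_le n
    exact ⟨by linarith [l_nonneg n, h1.1], by linarith [h1.2]⟩
  · rw [hTs]
    exact hg3 _ (hTm k).1 (hTm k).2

theorem not_closed {x : ℝ} (hx : 1 / 4 ≤ x) (hx' : x ≤ 3 / 4) : ¬ IsClosed (sAlpha f x) := by
  intro h
  exact quarter_notMem hx' (h.mem_of_tendsto tendsto_l (Eventually.of_forall (l_mem hx hx')))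

end Pool.Agent.Q132.SAlpha
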