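import Mathlib

open Filter Topology Set

namespace Pool.Agent.Q132.SAlpha

/-- `P x = (max 0 x)^2`. -/
noncomputable def P (x : ℝ) : ℝ := (max 0 x) ^ 2

lemma P_of_nonpos {x : ℝ} (h : x ≤ 0) : P x = 0 := by simp [P, h]

lemma P_of_nonneg {x : ℝ} (h : 0 ≤ x) : P x = x ^ 2 := by simp [P, h]

lemma P_nonneg (x : ℝ) : 0 ≤ P x := sq_nonneg _

lemma hasDerivAt_P (x : ℝ) : HasDerivAt P (2 * max 0 x) x := by
  rcases lt_trichotomy x 0 with h | h | h
  · have h1 : P =ᶠ[𝓝 x] fun _ => 0 := by
      filter_upwards [Iio_mem_nhds h] with y hy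
      exact P_of_nonpos (le_of_lt hy)
    rw [max_eq_left h.le, mul_zero]
    exact (hasDerivAt_const x (0 : ℝ)).congr_of_eventuallyEq h1
  · subst h
    rw [max_self, mul_zero, hasDerivAt_iff_isLittleO_nhds_zero]
    simp only [zero_add, P_of_nonpos le_rfl, sub_zero, smul_zero]
    rw [Asymptotics.isLittleO_iff]
    intro c hc
    filter_upwards [Metric.ball_mem_nhds (0 : ℝ) hc] with y hy
    rw [mem_ball_zero_iff, Real.norm_eq_abs] at hy
    rw [Real.norm_of_nonneg (P_nonneg y), Real.norm_eq_abs]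
    unfold P
    have h1 : 0 ≤ max 0 y := le_max_left _ _
    have h2 : max 0 y ≤ |y| := max_le (abs_nonneg y) (le_abs_self y)
    nlinarith [abs_nonneg y]
  · have h1 : P =ᶠ[𝓝 x] fun y => y ^ 2 := by
      filter_upwards [Ioi_mem_nhds h] with y hy
      exact P_of_nonneg (le_of_lt hy)
    rw [max_eq_right h.le]
    have h2 := (hasDerivAt_pow 2 x).congr_of_eventuallyEq h1
    simpa using h2

/-- A `C^1` transition function. -/
noncomputable def C (s : ℝ) : ℝ := 1 - P (1 - P s)

/-- Its derivative. -/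
noncomputable def C' (s : ℝ) : ℝ := 2 * max 0 (1 - P s) * (2 * max 0 s)

lemma hasDerivAt_C (s : ℝ) : HasDerivAt C (C' s) s := by
  have h1 : HasDerivAt (fun s => 1 - P s) (-(2 * max 0 s)) s := by
    simpa using (hasDerivAt_P s).const_sub 1
  have h2 := (hasDerivAt_P (1 - P s)).comp s h1
  have h3 := h2.const_sub 1
  exact h3.congr_deriv (by unfold C'; ring)

lemma C_of_nonpos {s : ℝ} (h : s ≤ 0) : C s = 0 := by
  unfold C; rw [P_of_nonpos h, sub_zero, P_of_nonneg zero_le_one]; norm_num

lemma C'_of_nonpos {s : ℝ} (h : s ≤ 0) : C' s = 0 := by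
  unfold C'; rw [max_eq_left h]; ring

lemma P_le_one {s : ℝ} (h : s ≤ 1) : P s ≤ 1 := by
  unfold P
  have h1 : 0 ≤ max 0 s := le_max_left _ _
  have h2 : max 0 s ≤ 1 := max_le zero_le_one h
  nlinarith

lemma C_of_one_le {s : ℝ} (h : 1 ≤ s) : C s = 1 := by
  unfold C; rw [P_of_nonneg (by linarith : (0 : ℝ) ≤ s), P_of_nonpos]
  · ring
  · nlinarith

lemma C_nonneg (s : ℝ) : 0 ≤ C s := by
  unfold C
  have := P_le_one (s := 1 - P s) (by linarith [P_nonneg s])
  linarith

lemma C_le_one (s : ℝ) : C s ≤ 1 := by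
  unfold C
  linarith [P_nonneg (1 - P s)]

lemma C'_nonneg (s : ℝ) : 0 ≤ C' s := by
  unfold C'
  have := le_max_left 0 (1 - P s)
  have := le_max_left 0 s
  positivity

lemma C'_le (s : ℝ) : C' s ≤ 4 := by
  unfold C'
  have h1 : max 0 (1 - P s) ≤ 1 := max_le zero_le_one (by linarith [P_nonneg s])
  have h1' := le_max_left 0 (1 - P s)
  have h2' := le_max_left 0 s
  by_cases hs : s ≤ 1
  · have h2 : max 0 s ≤ 1 := max_le zero_le_one hs
    nlinarith
  · push Not at hs
    have : 1 - P s ≤ 0 := by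
      rw [P_of_nonneg (by linarith)]; nlinarith
    rw [max_eq_left this]
    norm_num

lemma continuous_P : Continuous P := by unfold P; fun_prop

lemma continuous_C : Continuous C := by
  unfold C
  have := continuous_P
  fun_prop

lemma continuous_C' : Continuous C' := by
  unfold C'
  have := continuous_P
  fun_prop

/-! ### The sequences -/

noncomputable def eps : ℕ → ℝ
  | 0 => 1
  | n + 1 => eps n / 2 ^ (n + 2)

noncomputable def l (n : ℕ) : ℝ := 1 / 4 - eps n / 4
noncomputable def r (n : ℕ) : ℝ := 3 / 4 + (1 / 2) ^ n / 4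
noncomputable def L (n : ℕ) : ℝ := r n - l n
noncomputable def q (n : ℕ) : ℝ := 1 / 2 ^ (n + 2)
noncomputable def gam (n : ℕ) : ℝ := L n * q n ^ 2
noncomputable def c (n : ℕ) : ℝ := r n - gam n
noncomputable def eta (n : ℕ) : ℝ := gam n * (l (n + 1) - l n) / 2
noncomputable def del (n : ℕ) : ℝ := eps n ^ 2
noncomputable def lam (n : ℕ) (t : ℝ) : ℝ :=
  (r n - l (n + 1) - (t - c n) * L (n + 1) / gam n) / L n

lemma eps_pos (n : ℕ) : 0 < eps n := by
  induction n with
  | zero => exact one_pos
  | succ n ih => unfold eps; positivity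

lemma eps_succ (n : ℕ) : eps (n + 1) = eps n * q n := by
  rw [eps, q]; ring

lemma q_pos (n : ℕ) : 0 < q n := by unfold q; positivity

lemma q_eq (n : ℕ) : q n = (1 / 2) ^ n / 4 := by
  unfold q; rw [pow_add, one_div_pow]; field_simp; norm_num

lemma half_pow_pos (n : ℕ) : (0 : ℝ) < (1 / 2) ^ n := by positivity

lemma half_pow_le (n : ℕ) : ((1 / 2 : ℝ)) ^ n ≤ 1 := pow_le_one₀ (by norm_num) (by norm_num)

lemma q_le (n : ℕ) : q n ≤ 1 / 4 := by
  rw [q_eq]; linarith [half_pow_le n]

lemma eps_le_half (n : ℕ) : eps n ≤ (1 / 2) ^ n := by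
  induction n with
  | zero => simp [eps]
  | succ n ih =>
    rw [eps_succ, pow_succ]
    have := q_le n
    have := q_pos n
    have := eps_pos n
    nlinarith

lemma eps_le (n : ℕ) : eps n ≤ 2 * (1 / 8) ^ n := by
  induction n with
  | zero => simp [eps]
  | succ n ih =>
    rcases Nat.eq_zero_or_pos n with h | h
    · subst h; norm_num [eps]
    · have h1 : q n ≤ 1 / 8 := by
        rw [q_eq]
        have : ((1 : ℝ) / 2) ^ n ≤ (1 / 2) ^ 1 :=
          pow_le_pow_of_le_one (by norm_num) (by norm_num) h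
        norm_num at this ⊢
        linarith
      rw [eps_succ, pow_succ]
      have := eps_pos n
      have := q_pos n
      nlinarith

lemma eps_le_one (n : ℕ) : eps n ≤ 1 := (eps_le_half n).trans (half_pow_le n)

lemma l_lt (n : ℕ) : l n < 1 / 4 := by unfold l; linarith [eps_pos n]

lemma l_nonneg (n : ℕ) : 0 ≤ l n := by unfold l; linarith [eps_le_one n]

lemma l_diff (n : ℕ) : l (n + 1) - l n = eps n * (1 - q n) / 4 := by
  unfold l; rw [eps_succ]; ring

lemma l_diff_ge (n : ℕ) : 3 / 16 * eps n ≤ l (n + 1) - l n := by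
  rw [l_diff]
  have := q_le n
  have := eps_pos n
  nlinarith

lemma l_diff_pos (n : ℕ) : 0 < l (n + 1) - l n := by
  have := l_diff_ge n
  have := eps_pos n
  linarith

lemma l_diff_le (n : ℕ) : l (n + 1) - l n ≤ (1 / 2) ^ n / 4 := by
  rw [l_diff]
  have := q_pos n
  have := eps_pos n
  have := eps_le_half n
  nlinarith

lemma r_gt (n : ℕ) : 3 / 4 < r n := by unfold r; linarith [half_pow_pos n]

lemma r_le (n : ℕ) : r n ≤ 1 := by unfold r; linarith [half_pow_le n]

lemma r_diff (n : ℕ) : r n - r (n + 1) = (1 / 2) ^ n / 8 := by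
  unfold r; rw [pow_succ]; ring

lemma L_ge (n : ℕ) : 1 / 2 ≤ L n := by unfold L; linarith [r_gt n, l_lt n]

lemma L_le (n : ℕ) : L n ≤ 1 := by unfold L; linarith [r_le n, l_nonneg n]

lemma L_pos (n : ℕ) : 0 < L n := by linarith [L_ge n]

lemma gam_pos (n : ℕ) : 0 < gam n := mul_pos (L_pos n) (pow_pos (q_pos n) 2)

lemma gam_le (n : ℕ) : gam n ≤ (1 / 2) ^ n / 16 := by
  unfold gam
  have h1 := L_le n
  have h2 := L_pos n
  have h3 : q n ^ 2 ≤ (1 / 2) ^ n / 16 := by
    have := q_le n
    have := q_pos n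
    have h4 := q_eq n
    have : q n ^ 2 ≤ q n * (1 / 4) := by nlinarith
    rw [h4] at this ⊢
    linarith
  have h5 := half_pow_pos n
  nlinarith [sq_nonneg (q n)]

lemma gam_ge (n : ℕ) : (1 / 4) ^ n / 32 ≤ gam n := by
  unfold gam
  have h1 := L_ge n
  have h3 : q n ^ 2 = (1 / 4) ^ n / 16 := by
    rw [q_eq, div_pow, ← pow_mul, mul_comm n 2, pow_mul]; norm_num
  rw [h3]
  have : (0 : ℝ) < (1 / 4) ^ n := by positivity
  nlinarith

lemma eta_pos (n : ℕ) : 0 < eta n := by
  unfold eta
  have := gam_pos n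
  have := l_diff_pos n
  positivity

lemma eta_le_gam (n : ℕ) : eta n ≤ gam n / 8 := by
  unfold eta
  have h1 := gam_pos n
  have h2 := l_diff_le n
  have h3 := half_pow_le n
  nlinarith

lemma eta_le (n : ℕ) : eta n ≤ (1 / 2) ^ n / 128 := by
  have h1 := eta_le_gam n
  have h2 := gam_le n
  linarith

lemma gaps {m n : ℕ} (h : m < n) : r n + eta n < c m - eta m := by
  have h1 : ((1 : ℝ) / 2) ^ n ≤ (1 / 2) ^ (m + 1) :=
    pow_le_pow_of_le_one (by norm_num) (by norm_num) h
  rw [pow_succ] at h1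
  have h2 := eta_le n
  have h3 := eta_le m
  have h4 := gam_le m
  have h5 := half_pow_pos m
  unfold c r
  linarith

lemma c_gt (m : ℕ) : 3 / 4 < c m - eta m := by
  have h3 := eta_le m
  have h4 := gam_le m
  have h5 := half_pow_pos m
  unfold c r
  linarith

lemma c_lt_r (m : ℕ) : c m < r m := by unfold c; linarith [gam_pos m]

lemma r_anti {m n : ℕ} (h : m ≤ n) : r n ≤ r m := by
  unfold r
  have h1 : ((1 : ℝ) / 2) ^ n ≤ (1 / 2) ^ m :=
    pow_le_pow_of_le_one (by norm_num) (by norm_num) h
  linarith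

lemma eps_anti {m n : ℕ} (h : m ≤ n) : eps n ≤ eps m := by
  refine antitone_nat_of_succ_le (fun k => ?_) h
  rw [eps_succ]
  have := q_le k
  have := eps_pos k
  nlinarith

lemma del_pos (n : ℕ) : 0 < del n := pow_pos (eps_pos n) 2

lemma del_anti {m n : ℕ} (h : m ≤ n) : del n ≤ del m := by
  unfold del
  have := eps_anti h
  have := eps_pos n
  nlinarith

lemma del_succ (n : ℕ) : del (n + 1) = del n * gam n / L n := by
  unfold del gam
  rw [eps_succ]
  have := (L_pos n).ne'
  field_simp

/-- In the relevant range `0 ≤ lam ≤ 1`. -/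
lemma lam_mem {n : ℕ} {t : ℝ} (h1 : c n - eta n ≤ t) (h2 : t ≤ r n + eta n) :
    0 ≤ lam n t ∧ lam n t ≤ 1 := by
  have hL := L_pos n
  have hg := gam_pos n
  have hL1 := L_pos (n + 1)
  have hL1' := L_le (n + 1)
  have hd := l_diff_pos n
  have hd' := l_diff_le n
  have key : ∀ s : ℝ, s * L (n + 1) / gam n = s / gam n * L (n + 1) := fun s => by ring
  constructor
  · unfold lam
    apply div_nonneg _ hL.le
    rw [key]
    have h3 : (t - c n) / gam n ≤ 1 + (l (n + 1) - l n) / 2 := by
      rw [div_le_iff₀ hg]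
      have : t - c n ≤ gam n + eta n := by unfold c; linarith
      refine this.trans (le_of_eq ?_)
      unfold eta; ring
    have h4 : (t - c n) / gam n * L (n + 1) ≤ (1 + (l (n + 1) - l n) / 2) * L (n + 1) := by
      gcongr
    have h5 : L (n + 1) = r (n + 1) - l (n + 1) := rfl
    have h6 := r_diff n
    nlinarith
  · unfold lam
    rw [div_le_one hL, key]
    have h3 : -((l (n + 1) - l n) / 2) ≤ (t - c n) / gam n := by
      rw [le_div_iff₀ hg]
      have : -eta n ≤ t - c n := by linarith
      refine le_trans (le_of_eq ?_) this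
      unfold eta; ring
    have h4 : -((l (n + 1) - l n) / 2) * L (n + 1) ≤ (t - c n) / gam n * L (n + 1) := by
      gcongr
    have h5 : L n = r n - l n := rfl
    nlinarith

/-- The `n`-th bump. -/
noncomputable def w (n : ℕ) (t : ℝ) : ℝ :=
  C ((t - c n) / eta n + 1) * C ((r n - t) / eta n + 1) * lam n t

/-- Its derivative. -/
noncomputable def w' (n : ℕ) (t : ℝ) : ℝ :=
  (C' ((t - c n) / eta n + 1) * (1 / eta n) * C ((r n - t) / eta n + 1) +
    C ((t - c n) / eta n + 1) * (C' ((r n - t) / eta n + 1) * (-1 / eta n))) * lam n t +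
  C ((t - c n) / eta n + 1) * C ((r n - t) / eta n + 1) * (-(L (n + 1) / gam n) / L n)

lemma hasDerivAt_w (n : ℕ) (t : ℝ) : HasDerivAt (w n) (w' n t) t := by
  have h1 : HasDerivAt (fun t => (t - c n) / eta n + 1) (1 / eta n) t :=
    (((hasDerivAt_id t).sub_const (c n)).div_const (eta n)).add_const 1
  have h2 : HasDerivAt (fun t => (r n - t) / eta n + 1) (-1 / eta n) t :=
    (((hasDerivAt_id t).const_sub (r n)).div_const (eta n)).add_const 1
  have h3 := (hasDerivAt_C ((t - c n) / eta n + 1)).comp t h1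
  have h4 := (hasDerivAt_C ((r n - t) / eta n + 1)).comp t h2
  have h5 : HasDerivAt (lam n) (-(L (n + 1) / gam n) / L n) t := by
    have e : lam n = fun t => (r n - l (n + 1) - (t - c n) * (L (n + 1) / gam n)) / L n := by
      funext t; unfold lam; rw [mul_div_assoc]
    rw [e]
    have h6 := ((((hasDerivAt_id t).sub_const (c n)).mul_const (L (n + 1) / gam n)).const_sub
      (r n - l (n + 1))).div_const (L n)
    simpa using h6
  exact (h3.mul h4).mul h5

lemma w_zero {n : ℕ} {t : ℝ} (h : t ≤ c n - eta n ∨ r n + eta n ≤ t) : w n t = 0 := by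
  have he := eta_pos n
  unfold w
  rcases h with h | h
  · rw [C_of_nonpos (s := (t - c n) / eta n + 1)]
    · ring
    · have : (t - c n) / eta n ≤ -1 := by
        rw [div_le_iff₀ he]; linarith
      linarith
  · rw [C_of_nonpos (s := (r n - t) / eta n + 1)]
    · ring
    · have : (r n - t) / eta n ≤ -1 := by
        rw [div_le_iff₀ he]; linarith
      linarith

lemma w'_zero {n : ℕ} {t : ℝ} (h : t ≤ c n - eta n ∨ r n + eta n ≤ t) : w' n t = 0 := by
  have he := eta_pos n
  unfold w'
  rcases h with h | h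
  · have h0 : (t - c n) / eta n + 1 ≤ 0 := by
      have : (t - c n) / eta n ≤ -1 := by
        rw [div_le_iff₀ he]; linarith
      linarith
    rw [C_of_nonpos h0, C'_of_nonpos h0]; ring
  · have h0 : (r n - t) / eta n + 1 ≤ 0 := by
      have : (r n - t) / eta n ≤ -1 := by
        rw [div_le_iff₀ he]; linarith
      linarith
    rw [C_of_nonpos h0, C'_of_nonpos h0]; ring

lemma w_mem (n : ℕ) (t : ℝ) : 0 ≤ w n t ∧ w n t ≤ 1 := by
  by_cases h : t ≤ c n - eta n ∨ r n + eta n ≤ t
  · rw [w_zero h]; norm_num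
  · push Not at h
    obtain ⟨h1, h2⟩ := lam_mem h.1.le h.2.le
    unfold w
    have a1 := C_nonneg ((t - c n) / eta n + 1)
    have a2 := C_nonneg ((r n - t) / eta n + 1)
    have b1 := C_le_one ((t - c n) / eta n + 1)
    have b2 := C_le_one ((r n - t) / eta n + 1)
    refine ⟨by positivity, ?_⟩
    exact mul_le_one₀ (mul_le_one₀ b1 a2 b2) h1 h2

lemma w_eq {n : ℕ} {t : ℝ} (h1 : c n ≤ t) (h2 : t ≤ r n) : w n t = lam n t := by
  have he := eta_pos n
  unfold w
  rw [C_of_one_le, C_of_one_le]
  · ring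
  · have : 0 ≤ (r n - t) / eta n := div_nonneg (by linarith) he.le
    linarith
  · have : 0 ≤ (t - c n) / eta n := div_nonneg (by linarith) he.le
    linarith

lemma del_div_eta (n : ℕ) : del n / eta n ≤ 700 * (1 / 2) ^ n := by
  rw [div_le_iff₀ (eta_pos n)]
  have h1 : del n ≤ eps n * (2 * (1 / 8) ^ n) := by
    unfold del
    rw [sq]
    exact mul_le_mul_of_nonneg_left (eps_le n) (eps_pos n).le
  have h2 : (1 / 4 : ℝ) ^ n / 32 * (3 / 16 * eps n) / 2 ≤ eta n := by
    unfold eta
    have := gam_ge n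
    have := l_diff_ge n
    have := eps_pos n
    have := (gam_pos n).le
    gcongr
  have h3 : (1 / 8 : ℝ) ^ n = (1 / 2) ^ n * (1 / 4) ^ n := by rw [← mul_pow]; norm_num
  have h4 : (0 : ℝ) < (1 / 2) ^ n * (1 / 4) ^ n := by positivity
  have h5 := mul_pos h4 (eps_pos n)
  calc del n ≤ eps n * (2 * (1 / 8) ^ n) := h1
    _ = 2 * ((1 / 2) ^ n * (1 / 4) ^ n * eps n) := by rw [h3]; ring
    _ ≤ 700 * (1 / 2) ^ n * ((1 / 4 : ℝ) ^ n / 32 * (3 / 16 * eps n) / 2) := by
        have : 700 * (1 / 2) ^ n * ((1 / 4 : ℝ) ^ n / 32 * (3 / 16 * eps n) / 2) =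
          (700 * 3 / 1024) * ((1 / 2) ^ n * (1 / 4) ^ n * eps n) := by ring
        rw [this]
        nlinarith
    _ ≤ 700 * (1 / 2) ^ n * eta n := by gcongr

lemma w'_bound (n : ℕ) (t : ℝ) : ‖del n * w' n t‖ ≤ 7000 * (1 / 2) ^ n := by
  have hd := del_pos n
  by_cases h : t ≤ c n - eta n ∨ r n + eta n ≤ t
  · rw [w'_zero h]
    simp
  · push Not at h
    obtain ⟨h1, h2⟩ := lam_mem h.1.le h.2.le
    have he := eta_pos n
    have hg := gam_pos n
    have hL := L_pos n
    have hL1 := L_pos (n + 1)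
    have a1 := C_nonneg ((t - c n) / eta n + 1)
    have a2 := C_nonneg ((r n - t) / eta n + 1)
    have b1 := C_le_one ((t - c n) / eta n + 1)
    have b2 := C_le_one ((r n - t) / eta n + 1)
    have c1 := C'_nonneg ((t - c n) / eta n + 1)
    have c2 := C'_nonneg ((r n - t) / eta n + 1)
    have d1 := C'_le ((t - c n) / eta n + 1)
    have d2 := C'_le ((r n - t) / eta n + 1)
    set A := C ((t - c n) / eta n + 1)
    set B := C ((r n - t) / eta n + 1)
    set A' := C' ((t - c n) / eta n + 1)
    set B' := C' ((r n - t) / eta n + 1)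
    have hw : |w' n t| ≤ 10 * (1 / eta n) := by
      have e : w' n t = (A' * B * lam n t - A * B' * lam n t) * (1 / eta n)
          - A * B * (L (n + 1) / (gam n * L n)) := by
        change (A' * (1 / eta n) * B + A * (B' * (-1 / eta n))) * lam n t +
          A * B * (-(L (n + 1) / gam n) / L n) = _
        field_simp
        ring
      rw [e]
      have k1 : |A' * B * lam n t - A * B' * lam n t| ≤ 8 := by
        have m1 : A' * B * lam n t ≤ 4 := by
          calc A' * B * lam n t ≤ 4 * 1 * 1 := by gcongr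
            _ = 4 := by norm_num
        have m2 : A * B' * lam n t ≤ 4 := by
          calc A * B' * lam n t ≤ 1 * 4 * 1 := by gcongr
            _ = 4 := by norm_num
        have m3 : 0 ≤ A' * B * lam n t := by positivity
        have m4 : 0 ≤ A * B' * lam n t := by positivity
        rw [abs_le]; constructor <;> linarith
      have k2 : L (n + 1) / (gam n * L n) ≤ 2 * (1 / eta n) := by
        have m1 : eta n ≤ gam n := by linarith [eta_le_gam n]
        have m2 := L_le (n + 1)
        have m3 := L_ge n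
        rw [mul_one_div, div_le_div_iff₀ (by positivity) he]
        nlinarith
      have k3 : 0 ≤ L (n + 1) / (gam n * L n) := by positivity
      have k4 : A * B * (L (n + 1) / (gam n * L n)) ≤ 2 * (1 / eta n) := by
        calc A * B * (L (n + 1) / (gam n * L n)) ≤ 1 * 1 * (L (n + 1) / (gam n * L n)) := by
              gcongr
          _ ≤ 2 * (1 / eta n) := by linarith
      have k5 : 0 ≤ A * B * (L (n + 1) / (gam n * L n)) := by positivity
      have k6 : |(A' * B * lam n t - A * B' * lam n t) * (1 / eta n)| ≤ 8 * (1 / eta n) := by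
        rw [abs_mul, abs_of_pos (by positivity : 0 < 1 / eta n)]
        gcongr
      have k7 := abs_sub ((A' * B * lam n t - A * B' * lam n t) * (1 / eta n))
        (A * B * (L (n + 1) / (gam n * L n)))
      rw [abs_of_nonneg k5] at k7
      linarith
    rw [norm_mul, Real.norm_of_nonneg hd.le, Real.norm_eq_abs]
    calc del n * |w' n t| ≤ del n * (10 * (1 / eta n)) := by gcongr
      _ = 10 * (del n / eta n) := by ring
      _ ≤ 10 * (700 * (1 / 2) ^ n) := by gcongr; exact del_div_eta n
      _ = 7000 * (1 / 2) ^ n := by ring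

lemma summable_u : Summable fun n : ℕ => 7000 * (1 / 2 : ℝ) ^ n :=
  (summable_geometric_of_lt_one (by norm_num) (by norm_num)).mul_left _

lemma del_le (n : ℕ) : del n ≤ (1 / 2) ^ n := by
  unfold del
  have := eps_le_half n
  have := eps_le_one n
  have := eps_pos n
  nlinarith

lemma summable_w (t : ℝ) : Summable fun n : ℕ => del n * w n t := by
  refine Summable.of_nonneg_of_le (fun n => mul_nonneg (del_pos n).le (w_mem n t).1) (fun n => ?_)
    (summable_geometric_of_lt_one (r := (1 / 2 : ℝ)) (by norm_num) (by norm_num))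
  have := del_le n
  have := w_mem n t
  have := del_pos n
  nlinarith

/-- The map. -/
noncomputable def f (t : ℝ) : ℝ := 1 - P (1 - 4 * t) - ∑' n, del n * w n t

lemma hasDerivAt_f (t : ℝ) :
    HasDerivAt f (8 * max 0 (1 - 4 * t) - ∑' n, del n * w' n t) t := by
  have h1 : HasDerivAt (fun t => 1 - P (1 - 4 * t)) (8 * max 0 (1 - 4 * t)) t := by
    have h2 : HasDerivAt (fun t : ℝ => 1 - 4 * t) (-4) t := by
      simpa using ((hasDerivAt_id t).const_mul 4).const_sub 1
    have h3 := ((hasDerivAt_P (1 - 4 * t)).comp t h2).const_sub 1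
    exact h3.congr_deriv (by ring)
  have h4 : HasDerivAt (fun t => ∑' n, del n * w n t) (∑' n, del n * w' n t) t :=
    hasDerivAt_tsum summable_u (fun n y => (hasDerivAt_w n y).const_mul (del n))
      (fun n y => w'_bound n y) (summable_w t) t
  exact h1.sub h4

lemma contDiff_f : ContDiff ℝ 1 f := by
  rw [contDiff_one_iff_deriv]
  refine ⟨fun t => (hasDerivAt_f t).differentiableAt, ?_⟩
  have e : deriv f = fun t => 8 * max 0 (1 - 4 * t) - ∑' n, del n * w' n t := by
    funext t; exact (hasDerivAt_f t).deriv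
  rw [e]
  refine Continuous.sub (by fun_prop) ?_
  refine continuous_tsum (fun n => ?_) summable_u (fun n y => w'_bound n y)
  unfold w' lam
  have := continuous_C
  have := continuous_C'
  fun_prop

lemma continuous_f : Continuous f := contDiff_f.continuous

/-! ### Values of the map -/

lemma tsum_zero {t : ℝ} (h : ∀ n, w n t = 0) : ∑' n, del n * w n t = 0 := by
  simp [h]

lemma f_left {t : ℝ} (h : t ≤ 1 / 4) : f t = 1 - (1 - 4 * t) ^ 2 := by
  unfold f
  rw [tsum_zero, P_of_nonneg (by linarith), sub_zero]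
  intro n
  exact w_zero (Or.inl (by linarith [c_gt n]))

lemma f_mid {t : ℝ} (h1 : 1 / 4 ≤ t) (h2 : t ≤ 3 / 4) : f t = 1 := by
  unfold f
  rw [tsum_zero, P_of_nonpos (by linarith), sub_zero, sub_zero]
  intro n
  exact w_zero (Or.inl (by linarith [c_gt n]))

lemma tsum_single {t : ℝ} {m : ℕ} (h1 : c m - eta m < t) (h2 : t < r m + eta m) :
    ∑' n, del n * w n t = del m * w m t := by
  apply tsum_eq_single
  intro n hn
  rcases lt_or_gt_of_ne hn with h | h
  · rw [w_zero (Or.inl (by linarith [gaps h]))]; ring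
  · rw [w_zero (Or.inr (by linarith [gaps h]))]; ring

lemma f_J {t : ℝ} {m : ℕ} (h1 : c m ≤ t) (h2 : t ≤ r m) : f t = 1 - del m * lam m t := by
  unfold f
  have he := eta_pos m
  rw [tsum_single (m := m) (by linarith) (by linarith), w_eq h1 h2, P_of_nonpos, sub_zero]
  linarith [c_gt m]

/-- `f` maps `[l n, r n]` to `[1 - del n, 1]`. -/
lemma f_mem {n : ℕ} {t : ℝ} (h1 : l n ≤ t) (h2 : t ≤ r n) : 1 - del n ≤ f t ∧ f t ≤ 1 := by
  have hd := del_pos n
  rcases le_or_gt t (1 / 4) with h | h
  · rw [f_left h]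
    have h3 : 1 - 4 * t ≤ eps n := by unfold l at h1; linarith
    unfold del
    constructor <;> nlinarith [eps_pos n]
  · have hP : P (1 - 4 * t) = 0 := P_of_nonpos (by linarith)
    by_cases hw : ∀ m, w m t = 0
    · unfold f
      rw [tsum_zero hw, hP]
      constructor <;> linarith
    · push Not at hw
      obtain ⟨m, hm⟩ := hw
      have h3 : c m - eta m < t := by
        by_contra hcon
        exact hm (w_zero (Or.inl (not_lt.1 hcon)))
      have h4 : t < r m + eta m := by
        by_contra hcon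
        exact hm (w_zero (Or.inr (not_lt.1 hcon)))
      have hmn : n ≤ m := by
        by_contra hcon
        push Not at hcon
        have := gaps hcon
        have := eta_pos n
        linarith
      unfold f
      rw [tsum_single h3 h4, hP]
      have h5 := del_anti hmn
      have h6 := w_mem m t
      have h7 := del_pos m
      constructor <;> nlinarith

end Pool.Agent.Q132.SAlpha
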